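import Mathlib

/-!
# Project SZ, module Cone: linear forms without common zeros on a cone

`r` linear forms are enough if any `r + 1` linear forms satisfy a homogeneous relation on `V`.  PROOF.
Claim: for every `k` and every `l : Fin (r + k) → Module.Dual ℂ E` with
`∀ v ∈ V, (∀ a, l a v = 0) → v = 0` there is `l' : Fin r → _` with the same property; take
`r + k ≥ finrank E` and the coordinates of a basis (for example `k = finrank E`, and zero forms for the
rest) to start.  Induction on `k`.  Let `l : Fin (r + k + 1) → _`, `hrel` for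
`fun a : Fin (r + 1) => l (a.castLE _)` gives `Q ≠ 0` of degree `e`; let `eval c Q ≠ 0`
(`MvPolynomial.funext`).  If `c = 0` then `e = 0` (`Q` homogeneous), `Q` is a nonzero constant and `V`
is empty: take `l' = 0`.  Otherwise `c a₀ ≠ 0`, `A = a₀.castLE _ : Fin (r + k + 1)`,
`D j = if h : j < r + 1 then c ⟨j, h⟩ else 0`, so `D A ≠ 0`, and
`l' j = l (A.succAbove j) - (D (A.succAbove j) / D A) • l A : Fin (r + k) → _`.  If `v ∈ V` and
`l' j v = 0` for all `j` then with `λ = l A v / D A` one has `l j v = λ * D j` for all `j` (for `j = A`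
and for `j = A.succAbove _`), so `0 = eval (fun a => λ * c a) Q = λ ^ e * eval c Q` (homogeneous: see
`Pool.Agent.H17.eval_smul_of_isHomogeneous` for a model, or `MvPolynomial.IsHomogeneous.eval₂`-type
lemmas; import of `Pool.Agent.H17R.Null` is allowed), so `λ ^ e = 0`, `λ = 0` and all `l j v = 0`,
`v = 0`.
-/

open MvPolynomial

noncomputable section

namespace Pool.Agent.H39.SZ

/-- Homogeneity of the evaluation. -/
private theorem eval_mul_const {n e : ℕ} {Q : MvPolynomial (Fin n) ℂ} (hQ : Q.IsHomogeneous e)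
    (lam : ℂ) (c : Fin n → ℂ) :
    eval (fun a => lam * c a) Q = lam ^ e * eval c Q := by
  rw [MvPolynomial.eval_eq', MvPolynomial.eval_eq', Finset.mul_sum]
  refine Finset.sum_congr rfl fun d hd => ?_
  have h1 : ∑ i, d i = e := by
    have h2 := hQ (MvPolynomial.mem_support_iff.mp hd)
    rw [Finsupp.weight_apply, Finsupp.sum_fintype _ _ (by simp)] at h2
    simpa using h2
  have h3 : ∏ i, (lam * c i) ^ d i = lam ^ e * ∏ i, c i ^ d i := by
    rw [← h1, ← Finset.prod_pow_eq_pow_sum, ← Finset.prod_mul_distrib]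
    exact Finset.prod_congr rfl fun i _ => mul_pow _ _ _
  rw [h3]
  ring

/-- One form can be saved as long as there are more than `r` of them. -/
private theorem reduce_forms {E : Type} [AddCommGroup E] [Module ℂ E] {r : ℕ} {V : Set E}
    (hrel : ∀ l : Fin (r + 1) → Module.Dual ℂ E, ∃ (e : ℕ) (Q : MvPolynomial (Fin (r + 1)) ℂ),
      Q ≠ 0 ∧ Q.IsHomogeneous e ∧ ∀ v ∈ V, eval (fun a => l a v) Q = 0) :
    ∀ (k : ℕ) (l : Fin (r + k) → Module.Dual ℂ E), (∀ v ∈ V, (∀ a, l a v = 0) → v = 0) →
      ∃ l' : Fin r → Module.Dual ℂ E, ∀ v ∈ V, (∀ a, l' a v = 0) → v = 0 := by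
  intro k
  induction k with
  | zero => exact fun l hl => ⟨l, hl⟩
  | succ k ih =>
    intro l hl
    have hle : r + 1 ≤ r + (k + 1) := by omega
    obtain ⟨e, Q, hQ0, hQ, hQV⟩ := hrel (fun a => l (Fin.castLE hle a))
    obtain ⟨c, hc⟩ : ∃ c : Fin (r + 1) → ℂ, eval c (X 0 * Q) ≠ 0 := by
      by_contra hcon
      push Not at hcon
      have h1 : (X 0 * Q : MvPolynomial (Fin (r + 1)) ℂ) = 0 :=
        MvPolynomial.funext fun x => by rw [hcon x, map_zero]
      exact (mul_ne_zero (MvPolynomial.X_ne_zero _) hQ0) h1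
    rw [map_mul, MvPolynomial.eval_X] at hc
    have hc0 : c 0 ≠ 0 := left_ne_zero_of_mul hc
    have hcQ : eval c Q ≠ 0 := right_ne_zero_of_mul hc
    let D : Fin (r + k + 1) → ℂ := fun j => if h : (j : ℕ) < r + 1 then c ⟨j, h⟩ else 0
    have hD0 : D 0 = c 0 := by
      simp only [D, Fin.val_zero, Nat.zero_lt_succ]
      rfl
    let l₁ : Fin (r + k + 1) → Module.Dual ℂ E := l
    refine ih (fun j => l₁ j.succ - (D j.succ / D 0) • l₁ 0) fun v hv hj => ?_
    have hall : ∀ j : Fin (r + k + 1), l₁ j v = l₁ 0 v / D 0 * D j := by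
      intro j
      refine Fin.cases ?_ (fun i => ?_) j
      · rw [div_mul_cancel₀ _ (by rw [hD0]; exact hc0)]
      · have h1 := hj i
        simp only [LinearMap.sub_apply, LinearMap.smul_apply, smul_eq_mul] at h1
        rw [sub_eq_zero.mp h1]
        ring
    have h2 := hQV v hv
    have h3 : (fun a : Fin (r + 1) => l (Fin.castLE hle a) v) =
        fun a => l₁ 0 v / D 0 * c a := by
      funext a
      have h4 := hall (Fin.castLE hle a)
      have h5 : D (Fin.castLE hle a) = c a := by
        simp only [D, Fin.val_castLE, a.isLt, dif_pos]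
      rw [h5] at h4
      exact h4
    rw [h3, eval_mul_const hQ] at h2
    have h6 : l₁ 0 v / D 0 = 0 :=
      eq_zero_of_pow_eq_zero ((mul_eq_zero.mp h2).resolve_right hcQ)
    refine hl v hv fun a => ?_
    have h7 := hall a
    rw [h6, zero_mul] at h7
    exact h7

theorem exists_forms {E : Type} [AddCommGroup E] [Module ℂ E] [FiniteDimensional ℂ E] {r : ℕ}
    {V : Set E}
    (hrel : ∀ l : Fin (r + 1) → Module.Dual ℂ E, ∃ (e : ℕ) (Q : MvPolynomial (Fin (r + 1)) ℂ),
      Q ≠ 0 ∧ Q.IsHomogeneous e ∧ ∀ v ∈ V, eval (fun a => l a v) Q = 0) :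
    ∃ l : Fin r → Module.Dual ℂ E, ∀ v ∈ V, (∀ a, l a v = 0) → v = 0 := by
  let b := Module.finBasis ℂ E
  refine reduce_forms hrel (Module.finrank ℂ E)
    (fun a => if h : (a : ℕ) < Module.finrank ℂ E then b.coord ⟨a, h⟩ else 0) fun v _ hall => ?_
  refine b.forall_coord_eq_zero_iff.mp fun i => ?_
  have h1 := hall ⟨i, lt_of_lt_of_le i.isLt (Nat.le_add_left _ _)⟩
  simpa only [i.isLt, dif_pos, Fin.eta] using h1

end Pool.Agent.H39.SZ
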