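import Mathlib

/-!
# Project SZ, module Lin: linear forms as polynomials
-/

open MvPolynomial

noncomputable section

namespace Pool.Agent.H39.SZ

variable {M : ℕ}

/-- The polynomial of a linear form. -/
def lin (l : Module.Dual ℂ (Fin (M + 1) → ℂ)) : MvPolynomial (Fin (M + 1)) ℂ :=
  ∑ i, C (l (Pi.single i 1)) * X i

theorem eval_lin (l : Module.Dual ℂ (Fin (M + 1) → ℂ)) (y : Fin (M + 1) → ℂ) :
    eval y (lin l) = l y := by
  have h : y = ∑ i, y i • Pi.single (M := fun _ => ℂ) i 1 := by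
    conv_lhs => rw [← Finset.univ_sum_single y]
    refine Finset.sum_congr rfl fun i _ => ?_
    rw [← Pi.single_smul, smul_eq_mul, mul_one]
  conv_rhs => rw [h, map_sum]
  rw [lin, map_sum]
  refine Finset.sum_congr rfl fun i _ => ?_
  rw [map_mul, eval_C, eval_X, map_smul, smul_eq_mul, mul_comm]

theorem lin_isHomogeneous (l : Module.Dual ℂ (Fin (M + 1) → ℂ)) : (lin l).IsHomogeneous 1 := by
  refine IsHomogeneous.sum _ _ _ fun i _ => ?_
  have h1 := (isHomogeneous_C (Fin (M + 1)) (l (Pi.single i 1))).mul (isHomogeneous_X ℂ i)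
  rwa [zero_add] at h1

/-- The quadratic forms `X b * t + l ^ 2`. -/
def quad (b : Fin (M + 1)) (t l : Module.Dual ℂ (Fin (M + 1) → ℂ)) :
    MvPolynomial (Fin (M + 1)) ℂ := X b * lin t + lin l ^ 2

theorem eval_quad (b : Fin (M + 1)) (t l : Module.Dual ℂ (Fin (M + 1) → ℂ))
    (y : Fin (M + 1) → ℂ) : eval y (quad b t l) = y b * t y + l y ^ 2 := by
  rw [quad, map_add, map_mul, map_pow, eval_X, eval_lin, eval_lin]

theorem quad_isHomogeneous (b : Fin (M + 1)) (t l : Module.Dual ℂ (Fin (M + 1) → ℂ)) :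
    (quad b t l).IsHomogeneous 2 :=
  ((isHomogeneous_X ℂ b).mul (lin_isHomogeneous t)).add ((lin_isHomogeneous l).pow 2)

end Pool.Agent.H39.SZ
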