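import Pool.Agent.H39.SY.Dim
import Pool.Agent.H39.SY.Defs
import Pool.Agent.H13.SM.Homog

/-!
# Project SZ, module Rel: relations between `r + 1` functions on a variety of dimension `r`

`exists_rel_slice`: `coordFun P b ≠ 0` (`Pool.Agent.H17R.coordFun_ne_zero_iff`); the `r + 1` elements
`aeval (fun i => ratio P i b) (Λ a)` of `FunField P` are algebraically dependent (`hz`: the
transcendence degree is `r`; compare the uses in module `Pool.Agent.H39.SY.RelA`), so there is `Q ≠ 0`
with `aeval (fun a => aeval (fun i => ratio P i b) (Λ a)) Q = 0`, that is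
`aeval (fun i => ratio P i b) (aeval Λ Q) = 0`, and `y` is in `pts (fun i => ratio P i b)`
(`Pool.Agent.H13.SM.mem_pts_iff hP h`), so `eval y (aeval Λ Q) = 0`.

`exists_rel_inf`: `Λ' = Fin.cons (X b) Λ`: `r + 2` forms of degree `1`, dependent modulo `P`
(`Pool.Agent.H39.SY.TD_cone`: `TD P (r + 1)`), so there is a polynomial `Q' ≠ 0` in `r + 2` variables
with `aeval Λ' Q' ∈ P`; some homogeneous component of `Q'` is not zero and has the same property (`P` is
homogeneous and `aeval Λ'` preserves degrees).  So let `e` be minimal such that there is a homogeneous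
`Q' ≠ 0` of degree `e` with `aeval Λ' Q' ∈ P`.  `Q` = the polynomial `Q'` with the first variable
replaced by `0` (`aeval (Fin.cons 0 X) Q'`, homogeneous of degree `e`).  If `Q = 0` then `X 0 ∣ Q'`
(for example by `MvPolynomial.finSuccEquiv`: the coefficient of degree `0` is zero, so
`Polynomial.X ∣ _`), `Q' = X 0 * Q''`, `Q''` homogeneous of degree `e - 1` (take a component), not zero,
and `X b * aeval Λ' Q'' ∈ P`, so `aeval Λ' Q'' ∈ P` (`P` prime, `X b ∉ P`): a contradiction to the
choice of `e`.  (`e = 0` is impossible in this case: a constant `Q' ≠ 0` gives `Q ≠ 0`.)  For `y ∈ Zer P`,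
`y b = 0`: `0 = eval y (aeval Λ' Q') = eval (Fin.cons 0 (fun a => eval y (Λ a))) Q'
= eval (fun a => eval y (Λ a)) Q`.
-/

open MvPolynomial
open Pool.Agent.H17GT (coordFun)
open Pool.Agent.H17LG.Variety (FunField ratio)
open Pool.Agent.H5.DG (Homog TD)
open Pool.Agent.H39.SY (Zer)

noncomputable section

namespace Pool.Agent.H39.SZ

variable {M r : ℕ} {P : Ideal (MvPolynomial (Fin (M + 1)) ℂ)} [P.IsPrime]

/-- Evaluation of a substitution. -/
private theorem eval_subst {ι κ : Type} (y : κ → ℂ) (f : ι → MvPolynomial κ ℂ)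
    (Q : MvPolynomial ι ℂ) : eval y (aeval f Q) = eval (fun i => eval y (f i)) Q := by
  induction Q using MvPolynomial.induction_on with
  | C c => simp
  | add p q hp hq => rw [map_add, map_add, map_add, hp, hq]
  | mul_X p i hp => rw [map_mul, map_mul, map_mul, hp, aeval_X, eval_X]

/-- Homogeneous components and linear maps which raise the degree by `s`. -/
private theorem component_shift {n m s : ℕ}
    (T : MvPolynomial (Fin n) ℂ →ₗ[ℂ] MvPolynomial (Fin m) ℂ)
    (hT : ∀ (k : ℕ) (Q : MvPolynomial (Fin n) ℂ), Q.IsHomogeneous k → (T Q).IsHomogeneous (k + s))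
    (k : ℕ) (Q : MvPolynomial (Fin n) ℂ) :
    homogeneousComponent (k + s) (T Q) = T (homogeneousComponent k Q) := by
  have h1 : ∀ i, homogeneousComponent (k + s) (T (homogeneousComponent i Q)) =
      if i = k then T (homogeneousComponent i Q) else 0 := by
    intro i
    rw [homogeneousComponent_of_mem (hT i _ (homogeneousComponent_isHomogeneous i Q))]
    by_cases h : i = k
    · rw [if_pos (by omega), if_pos h]
    · rw [if_neg (by omega), if_neg h]
  conv_lhs => rw [← sum_homogeneousComponent Q, map_sum, map_sum]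
  rw [Finset.sum_congr rfl fun i _ => h1 i, Finset.sum_ite_eq']
  split_ifs with hk
  · rfl
  · rw [homogeneousComponent_eq_zero k Q (by simpa using hk), map_zero]

/-- The value at `0` of the first variable. -/
private theorem eval_zero_first {n : ℕ} (Q : MvPolynomial (Fin (n + 1)) ℂ) :
    (finSuccEquiv ℂ n Q).eval 0 =
      aeval (Fin.cons 0 X : Fin (n + 1) → MvPolynomial (Fin n) ℂ) Q := by
  induction Q using MvPolynomial.induction_on with
  | C c =>
    rw [finSuccEquiv_apply, eval₂Hom_C]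
    simp
  | add p q hp hq => rw [map_add, Polynomial.eval_add, map_add, hp, hq]
  | mul_X p i hp =>
    rw [map_mul, Polynomial.eval_mul, map_mul, hp, aeval_X]
    congr 1
    refine Fin.cases ?_ (fun i => ?_) i
    · rw [finSuccEquiv_X_zero, Polynomial.eval_X, Fin.cons_zero]
    · rw [finSuccEquiv_X_succ, Polynomial.eval_C, Fin.cons_succ]

theorem exists_rel_slice (hP : Homog P) (hz : ∃ z : Fin r → FunField P, IsTranscendenceBasis ℂ z)
    {b : Fin (M + 1)} (hb : X b ∉ P) (Λ : Fin (r + 1) → MvPolynomial (Fin (M + 1)) ℂ) :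
    ∃ Q : MvPolynomial (Fin (r + 1)) ℂ, Q ≠ 0 ∧
      ∀ y ∈ Zer P, y b = 1 → eval (fun a => eval y (Λ a)) Q = 0 := by
  obtain ⟨z, hz⟩ := hz
  have h : coordFun P b ≠ 0 := Pool.Agent.H17R.coordFun_ne_zero_iff.2 hb
  have hdep : ¬ AlgebraicIndependent ℂ (fun a => aeval (fun i => ratio P i b) (Λ a)) := by
    intro hu
    have h1 := hu.cardinalMk_le_trdeg
    rw [← hz.cardinalMk_eq_trdeg, Cardinal.mk_fin, Cardinal.mk_fin, Nat.cast_le] at h1
    omega
  rw [algebraicIndependent_iff] at hdep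
  push Not at hdep
  obtain ⟨Q, hQ, hQ0⟩ := hdep
  refine ⟨Q, hQ0, fun y hy hyb => ?_⟩
  have hmem := (Pool.Agent.H13.SM.mem_pts_iff hP h).2 ⟨hyb, hy⟩
  have h2 := hmem (aeval Λ Q) (by
    rw [← hQ]
    exact comp_aeval_apply (f := Λ) (aeval fun i => ratio P i b) Q)
  rw [eval_subst] at h2
  exact h2

theorem exists_rel_inf (hP : Homog P) (hz : ∃ z : Fin r → FunField P, IsTranscendenceBasis ℂ z)
    {b : Fin (M + 1)} (hb : X b ∉ P) (Λ : Fin (r + 1) → MvPolynomial (Fin (M + 1)) ℂ)
    (hΛ : ∀ a, (Λ a).IsHomogeneous 1) :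
    ∃ (e : ℕ) (Q : MvPolynomial (Fin (r + 1)) ℂ), Q ≠ 0 ∧ Q.IsHomogeneous e ∧
      ∀ y ∈ Zer P, y b = 0 → eval (fun a => eval y (Λ a)) Q = 0 := by
  obtain ⟨L, hL⟩ : ∃ L : Fin (r + 1 + 1) → MvPolynomial (Fin (M + 1)) ℂ, L = Fin.cons (X b) Λ :=
    ⟨_, rfl⟩
  have hL1 : ∀ i, (L i).IsHomogeneous 1 := by
    intro i
    rw [hL]
    refine Fin.cases ?_ (fun i => ?_) i
    · rw [Fin.cons_zero]
      exact isHomogeneous_X _ _
    · rw [Fin.cons_succ]
      exact hΛ i
  have hLd : ∀ (k : ℕ) (Q : MvPolynomial (Fin (r + 1 + 1)) ℂ), Q.IsHomogeneous k →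
      ((aeval L).toLinearMap Q).IsHomogeneous (k + 0) := by
    intro k Q hQ
    have h1 := hQ.aeval L hL1
    rw [one_mul] at h1
    exact h1
  -- a homogeneous relation
  have hex : ∃ e, ∃ Q : MvPolynomial (Fin (r + 1 + 1)) ℂ, Q ≠ 0 ∧ Q.IsHomogeneous e ∧
      aeval L Q ∈ P := by
    have h1 := (Pool.Agent.H39.SY.TD_cone hP ⟨b, hb⟩ hz).1 L
    rw [algebraicIndependent_iff] at h1
    push Not at h1
    obtain ⟨Q, hQ, hQ0⟩ := h1
    have h2 : aeval L Q ∈ P := by
      rw [← Ideal.Quotient.eq_zero_iff_mem, ← hQ]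
      exact comp_aeval_apply (f := L) (Ideal.Quotient.mkₐ ℂ P) Q
    obtain ⟨k, hk⟩ : ∃ k, homogeneousComponent k Q ≠ 0 := by
      by_contra hcon
      push Not at hcon
      refine hQ0 ?_
      rw [← sum_homogeneousComponent Q]
      exact Finset.sum_eq_zero fun i _ => hcon i
    refine ⟨k, homogeneousComponent k Q, hk, homogeneousComponent_isHomogeneous k Q, ?_⟩
    have h3 := component_shift (aeval L).toLinearMap hLd k Q
    have h4 := hP _ h2 k
    rw [add_zero] at h3
    change aeval L (homogeneousComponent k Q) ∈ P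
    change homogeneousComponent k (aeval L Q) = aeval L (homogeneousComponent k Q) at h3
    rw [← h3]
    exact h4
  classical
  obtain ⟨e, ⟨Q', hQ'0, hQ', hQ'P⟩, hmin⟩ : ∃ e, (∃ Q : MvPolynomial (Fin (r + 1 + 1)) ℂ,
      Q ≠ 0 ∧ Q.IsHomogeneous e ∧ aeval L Q ∈ P) ∧ ∀ e' < e,
      ¬ ∃ Q : MvPolynomial (Fin (r + 1 + 1)) ℂ, Q ≠ 0 ∧ Q.IsHomogeneous e' ∧ aeval L Q ∈ P :=
    ⟨Nat.find hex, Nat.find_spec hex, fun _ h => Nat.find_min hex h⟩
  refine ⟨e, aeval (Fin.cons 0 X : Fin (r + 1 + 1) → MvPolynomial (Fin (r + 1)) ℂ) Q', ?_, ?_,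
    fun y hy hyb => ?_⟩
  · intro hQ0
    rw [← eval_zero_first, ← Polynomial.coeff_zero_eq_eval_zero, ← Polynomial.X_dvd_iff] at hQ0
    obtain ⟨R, hR⟩ := hQ0
    obtain ⟨Q'', rfl⟩ := (finSuccEquiv ℂ (r + 1)).surjective R
    rw [← finSuccEquiv_X_zero (R := ℂ) (n := r + 1), ← map_mul] at hR
    have hfac : Q' = X 0 * Q'' := (finSuccEquiv ℂ (r + 1)).injective hR
    have hQ''0 : Q'' ≠ 0 := by
      rintro rfl
      exact hQ'0 (by rw [hfac, mul_zero])
    obtain ⟨k, hk⟩ : ∃ k, homogeneousComponent k Q'' ≠ 0 := by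
      by_contra hcon
      push Not at hcon
      refine hQ''0 ?_
      rw [← sum_homogeneousComponent Q'']
      exact Finset.sum_eq_zero fun i _ => hcon i
    have h1 := component_shift (s := 1) (LinearMap.mulLeft ℂ (X 0 : MvPolynomial (Fin (r + 1 + 1)) ℂ))
      (fun k Q hQ => by
        have h2 := (isHomogeneous_X ℂ (0 : Fin (r + 1 + 1))).mul hQ
        exact (Nat.add_comm 1 k) ▸ h2) k Q''
    simp only [LinearMap.mulLeft_apply] at h1
    rw [← hfac] at h1
    have h3 : homogeneousComponent (k + 1) Q' ≠ 0 := by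
      rw [h1]
      exact mul_ne_zero (X_ne_zero 0) hk
    rw [homogeneousComponent_of_mem hQ'] at h3
    have hke : e = k + 1 := by
      by_contra hcon
      exact h3 (if_neg (Ne.symm hcon))
    have h4 : Q' = X 0 * homogeneousComponent k Q'' := by
      rw [← h1, homogeneousComponent_of_mem hQ', if_pos hke.symm]
    refine hmin k (by omega) ⟨homogeneousComponent k Q'', hk,
      homogeneousComponent_isHomogeneous k Q'', ?_⟩
    rw [h4, map_mul, aeval_X] at hQ'P
    have hL0 : L 0 = X b := by rw [hL, Fin.cons_zero]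
    rw [hL0] at hQ'P
    exact ((inferInstance : P.IsPrime).mem_or_mem hQ'P).resolve_left hb
  · have h1 := hQ'.aeval (Fin.cons 0 X : Fin (r + 1 + 1) → MvPolynomial (Fin (r + 1)) ℂ) (n := 1)
      (fun i => by
        refine Fin.cases ?_ (fun i => ?_) i
        · rw [Fin.cons_zero]
          exact isHomogeneous_zero _ _ _
        · rw [Fin.cons_succ]
          exact isHomogeneous_X _ _)
    rw [one_mul] at h1
    exact h1
  · have h1 := hy _ hQ'P
    rw [eval_subst] at h1
    rw [eval_subst, ← h1]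
    congr 2
    funext i
    rw [hL]
    refine Fin.cases ?_ (fun i => ?_) i
    · rw [Fin.cons_zero, Fin.cons_zero, map_zero, eval_X, hyb]
    · rw [Fin.cons_succ, Fin.cons_succ, eval_X]

end Pool.Agent.H39.SZ
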