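import Pool.Agent.H39.SZ.Cone
import Pool.Agent.H39.SZ.Lin
import Pool.Agent.H39.SZ.Rel

/-!
# Project SZ, module Inf: linear forms without common zeros at infinity
-/

open MvPolynomial Filter Topology
open Pool.Agent.H17LG.Variety (FunField)
open Pool.Agent.H5.DG (Homog)
open Pool.Agent.H39.SY (Zer)

noncomputable section

namespace Pool.Agent.H39.SZ

theorem exists_inf {M r : ℕ} {P : Ideal (MvPolynomial (Fin (M + 1)) ℂ)} [P.IsPrime] (hP : Homog P)
    (hz : ∃ z : Fin r → FunField P, IsTranscendenceBasis ℂ z) {b : Fin (M + 1)} (hb : X b ∉ P) :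
    ∃ l : Fin r → Module.Dual ℂ (Fin (M + 1) → ℂ),
      ∀ y ∈ Zer P, y b = 0 → (∀ a, l a y = 0) → y = 0 := by
  obtain ⟨l, hl⟩ := exists_forms (r := r) (V := {y : Fin (M + 1) → ℂ | y ∈ Zer P ∧ y b = 0})
    (fun l => by
      obtain ⟨e, Q, hQ0, hQ, h⟩ := exists_rel_inf hP hz hb (fun a => lin (l a))
        fun a => lin_isHomogeneous (l a)
      refine ⟨e, Q, hQ0, hQ, fun v hv => ?_⟩
      have h1 := h v hv.1 hv.2
      simpa only [eval_lin] using h1)
  exact ⟨l, fun y hy hyb h => hl y ⟨hy, hyb⟩ h⟩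

end Pool.Agent.H39.SZ
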