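import Pool.Agent.H39.SZ.Lin
import Pool.Agent.H39.SY.Defs
import Pool.Agent.H5.DG.CovAlg
import Pool.Agent.H13.SM.Noether
import Pool.Agent.H13.SM.Homog
import Pool.Agent.H92.GT.Index
import Pool.Agent.H17R.Point

/-!
# Project SZ, module Noe: a Noether normalisation by quadratic forms

`F = Fin.cons (X b ^ 2) (fun a => quad b (t a) (l a)) : Fin (r + 1) → _`, forms of degree `2` without
common zeros on `Zer P`: if all are zero at `y ∈ Zer P` then `y b = 0`, `l a y ^ 2 = 0` (`eval_quad`), so
`y = 0` by `hl`.  So `BaseFree P 2 F` (`Pool.Agent.H5.DG.BaseFree`): `base` is Hilbert's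
Nullstellensatz: `X i` vanishes at all common zeros of the ideal `span (range F) ⊔ P` (the only
possible one is `0`), so `X i` is in its radical (`MvPolynomial.vanishingIdeal_zeroLocus_eq_radical`;
there may be a ready lemma in the tree, see the uses of `BaseFree` in `Pool/Agent/H5/DG`,
`Pool.Agent.H17.PN` Nullstellensatz lemmas).

Let `x i = ratio P i b` (`coordFun P b ≠ 0` by `Pool.Agent.H17R.coordFun_ne_zero_iff`; `x b = 1`) and
`β a = aeval x (quad b (t a) (l a))`.  `Pool.Agent.H5.DG.exists_relation hP hF i`: `s ≥ 1` and forms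
`c t`, `t : Fin s`, of degree `s - t`, with `(X i ^ 2) ^ s + ∑ t, aeval F (c t) * (X i ^ 2) ^ t ∈ P`.
Apply `aeval x`, which is zero on `P` (see the private lemma `ChartAt_aeval_mem` in
`Pool.Agent.H39.SY.ChartAt`, or `mem_pts`): `(x i ^ 2) ^ s + ∑ t, aeval (Fin.cons 1 β) (c t) *
(x i ^ 2) ^ t = 0`, a monic equation for `x i` over `Algebra.adjoin ℂ (Set.range β)`, of degree
`2 s ≥ 2`.  So `x i` is integral (first `x i ^ 2`, then `IsIntegral.of_pow`).

`AlgebraicIndependent`: `FunField P` is generated by the `x i` (`Pool.Agent.H17R.adjoin_ratio`), which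
are integral, so `FunField P` is algebraic over `Algebra.adjoin ℂ (Set.range β)` (copy the private lemma
`Noether_algebraic` of `Pool.Agent.H13.SM.Noether`), and the transcendence degree is `r`
(`hz`) = the number of the `β a`: so they are independent (some of the `β a` form a transcendence
basis, `exists_isTranscendenceBasis_subset` or `Pool.Agent.H92.GT.exists_index` /
`Pool.Agent.H92.GT.isTranscendenceBasis_of` in `Pool.Agent.H92.GT.Index`, and it must be all of them).
-/

open MvPolynomial
open Pool.Agent.H17GT (coordFun)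
open Pool.Agent.H17LG.Variety (FunField ratio)
open Pool.Agent.H5.DG (Homog BaseFree)
open Pool.Agent.H39.SY (Zer)

noncomputable section

namespace Pool.Agent.H39.SZ

/-- The forms `X b ^ 2` and the quadratic forms. -/
private def Noe_F {M r : ℕ} (b : Fin (M + 1)) (t l : Fin r → Module.Dual ℂ (Fin (M + 1) → ℂ)) :
    Fin (r + 1) → MvPolynomial (Fin (M + 1)) ℂ :=
  Fin.cons (X b ^ 2) (fun a => quad b (t a) (l a))

private theorem Noe_base {M r : ℕ} {P : Ideal (MvPolynomial (Fin (M + 1)) ℂ)} {b : Fin (M + 1)}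
    (t l : Fin r → Module.Dual ℂ (Fin (M + 1) → ℂ))
    (hl : ∀ y ∈ Zer P, y b = 0 → (∀ a, l a y = 0) → y = 0) : BaseFree P 2 (Noe_F b t l) where
  pos := by norm_num
  hom := by
    intro a
    refine Fin.cases ?_ (fun a => ?_) a
    · rw [Noe_F, Fin.cons_zero]
      exact isHomogeneous_X_pow b 2
    · rw [Noe_F, Fin.cons_succ]
      exact quad_isHomogeneous b (t a) (l a)
  base := by
    intro i
    have h1 : (X i : MvPolynomial (Fin (M + 1)) ℂ) ∈
        (Ideal.span (Set.range (Noe_F b t l)) ⊔ P).radical := by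
      rw [← MvPolynomial.vanishingIdeal_zeroLocus_eq_radical (K := ℂ),
        MvPolynomial.mem_vanishingIdeal_iff]
      intro v hv
      rw [MvPolynomial.aeval_eq_eval]
      change eval v (X i) = 0
      rw [eval_X]
      have hv' : ∀ Q ∈ Ideal.span (Set.range (Noe_F b t l)) ⊔ P, eval v Q = 0 := fun Q hQ => by
        have h1 := hv Q hQ
        rwa [MvPolynomial.aeval_eq_eval] at h1
      have hF : ∀ a, eval v (Noe_F b t l a) = 0 := fun a =>
        hv' _ (Ideal.mem_sup_left (Ideal.subset_span ⟨a, rfl⟩))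
      have hb0 : v b = 0 := by
        have h2 := hF 0
        rw [Noe_F, Fin.cons_zero, map_pow, eval_X] at h2
        exact pow_eq_zero_iff (two_ne_zero) |>.1 h2
      have hla : ∀ a, l a v = 0 := by
        intro a
        have h2 := hF a.succ
        rw [Noe_F, Fin.cons_succ, eval_quad, hb0, zero_mul, zero_add] at h2
        exact pow_eq_zero_iff (two_ne_zero) |>.1 h2
      have h3 := hl v (fun Q hQ => hv' Q (Ideal.mem_sup_right hQ)) hb0 hla
      rw [h3, Pi.zero_apply]
    exact h1

private theorem Noe_aeval_mem {M : ℕ} {P : Ideal (MvPolynomial (Fin (M + 1)) ℂ)} [P.IsPrime] (hP : Homog P)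
    {l : Fin (M + 1)} (h : coordFun P l ≠ 0)
    {Q : MvPolynomial (Fin (M + 1)) ℂ} (hQ : Q ∈ P) : aeval (fun i => ratio P i l) Q = 0 := by
  rw [← MvPolynomial.sum_homogeneousComponent Q, map_sum]
  refine Finset.sum_eq_zero fun d _ => ?_
  exact (Pool.Agent.H17R.gen_eq_zero_iff h (MvPolynomial.homogeneousComponent_isHomogeneous d Q)).2
    (hP Q hQ d)

/-- A monic equation over a subalgebra. -/
private theorem Noe_monic {K : Type} [Field K] [Algebra ℂ K] (A : Subalgebra ℂ K) (s : ℕ) (e : Fin s → A)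
    (y : K) (h : y ^ s + ∑ t, (e t : K) * y ^ (t : ℕ) = 0) : IsIntegral A y := by
  refine ⟨Polynomial.X ^ s + ∑ t : Fin s, Polynomial.C (e t) * Polynomial.X ^ (t : ℕ),
    Polynomial.monic_X_pow_add (Polynomial.degree_sum_fin_lt _), ?_⟩
  rw [Polynomial.eval₂_add, Polynomial.eval₂_X_pow, Polynomial.eval₂_finsetSum]
  rw [← h]
  congr 1
  refine Finset.sum_congr rfl fun t _ => ?_
  rw [Polynomial.eval₂_mul, Polynomial.eval₂_C, Polynomial.eval₂_X_pow]
  rfl

private theorem Noe_algebraic {ι K : Type} [Field K] [Algebra ℂ K] {a : ι → K}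
    (ha : IntermediateField.adjoin ℂ (Set.range a) = ⊤) {s : ℕ} (b : Fin s → K)
    (hb : ∀ i, IsIntegral (Algebra.adjoin ℂ (Set.range b)) (a i)) :
    Algebra.IsAlgebraic (Algebra.adjoin ℂ (Set.range b)) K := by
  constructor
  intro x
  have hx : x ∈ IntermediateField.adjoin ℂ (Set.range a) := by
    rw [ha]; exact IntermediateField.mem_top
  induction hx using IntermediateField.adjoin_induction with
  | mem y hy =>
    obtain ⟨i, rfl⟩ := hy
    exact (hb i).isAlgebraic
  | algebraMap y =>
    have h1 : algebraMap ℂ K y =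
        algebraMap (Algebra.adjoin ℂ (Set.range b)) K (algebraMap ℂ (Algebra.adjoin ℂ (Set.range b)) y) := rfl
    rw [h1]
    exact isAlgebraic_algebraMap _
  | add y z _ _ hy hz => exact hy.add hz
  | inv y _ hy => exact hy.inv
  | mul y z _ _ hy hz => exact hy.mul hz

open scoped IntermediateField.algebraAdjoinAdjoin in
/-- `r` elements over which the field is algebraic are independent. -/
private theorem Noe_indep {K : Type} [Field K] [Algebra ℂ K] {r : ℕ} (b : Fin r → K)
    (halg : Algebra.IsAlgebraic (Algebra.adjoin ℂ (Set.range b)) K)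
    {z : Fin r → K} (hz : IsTranscendenceBasis ℂ z) : AlgebraicIndependent ℂ b := by
  have h1 : Algebra.IsAlgebraic (IntermediateField.adjoin ℂ (Set.range b)) K :=
    (IsFractionRing.comap_isAlgebraic_iff (A := Algebra.adjoin ℂ (Set.range b))
      (K := IntermediateField.adjoin ℂ (Set.range b)) (C := K)).mp halg
  obtain ⟨J, hJ⟩ := Pool.Agent.H92.GT.exists_index h1 hz
  have hinj : Function.Injective J := by
    intro i j hij
    have h2 := hJ.1.injective
    exact h2 (by
      show b (J i) = b (J j)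
      rw [hij])
  have hbij : Function.Bijective J := Finite.injective_iff_bijective.1 hinj
  obtain ⟨e, he⟩ : ∃ e : Fin r ≃ Fin r, ∀ i, e i = J i := ⟨Equiv.ofBijective J hbij, fun _ => rfl⟩
  have h3 := hJ.1.comp (e.symm : Fin r → Fin r) e.symm.injective
  have h4 : ((fun i => b (J i)) ∘ (e.symm : Fin r → Fin r)) = b := by
    funext i
    show b (J (e.symm i)) = b i
    rw [← he, Equiv.apply_symm_apply]
  rwa [h4] at h3

theorem noether_quad {M r : ℕ} {P : Ideal (MvPolynomial (Fin (M + 1)) ℂ)} [P.IsPrime]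
    (hP : Homog P) (hz : ∃ z : Fin r → FunField P, IsTranscendenceBasis ℂ z) {b : Fin (M + 1)}
    (hb : X b ∉ P) (t l : Fin r → Module.Dual ℂ (Fin (M + 1) → ℂ))
    (hl : ∀ y ∈ Zer P, y b = 0 → (∀ a, l a y = 0) → y = 0) :
    AlgebraicIndependent ℂ (fun a => aeval (fun i => ratio P i b) (quad b (t a) (l a))) ∧
      ∀ i, IsIntegral (Algebra.adjoin ℂ
        (Set.range fun a => aeval (fun i => ratio P i b) (quad b (t a) (l a)))) (ratio P i b) := by
  have hcf : coordFun P b ≠ 0 := Pool.Agent.H17R.coordFun_ne_zero_iff.2 hb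
  obtain ⟨x, hx⟩ : ∃ x : Fin (M + 1) → FunField P, x = fun i => ratio P i b := ⟨_, rfl⟩
  obtain ⟨β, hβ⟩ : ∃ β : Fin r → FunField P, β = fun a => aeval x (quad b (t a) (l a)) := ⟨_, rfl⟩
  have hxb : x b = 1 := by
    rw [hx]
    exact Pool.Agent.H17R.ratio_self hcf
  have hF := Noe_base (P := P) t l hl
  have hint : ∀ i, IsIntegral (Algebra.adjoin ℂ (Set.range β)) (x i) := by
    intro i
    obtain ⟨s, c, _, _, hrel⟩ := Pool.Agent.H5.DG.exists_relation hP hF i
    refine IsIntegral.of_pow (n := 2) (by norm_num) ?_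
    have hmem : ∀ Q : MvPolynomial (Fin (r + 1)) ℂ, aeval x (aeval (Noe_F b t l) Q) ∈
        Algebra.adjoin ℂ (Set.range β) := by
      intro Q
      have h1 : aeval x (aeval (Noe_F b t l) Q) = aeval (fun a => aeval x (Noe_F b t l a)) Q := by
        rw [← AlgHom.comp_apply, MvPolynomial.comp_aeval]
      rw [h1]
      have h2 : ∀ a, aeval x (Noe_F b t l a) ∈ Algebra.adjoin ℂ (Set.range β) := by
        intro a
        refine Fin.cases ?_ (fun a => ?_) a
        · rw [Noe_F, Fin.cons_zero, map_pow, aeval_X, hxb, one_pow]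
          exact one_mem _
        · rw [Noe_F, Fin.cons_succ]
          exact Algebra.subset_adjoin ⟨a, by rw [hβ]⟩
      induction Q using MvPolynomial.induction_on with
      | C a =>
        rw [aeval_C]
        exact Subalgebra.algebraMap_mem _ _
      | add p q hp hq =>
        rw [map_add]
        exact add_mem (hp (by rw [← AlgHom.comp_apply, MvPolynomial.comp_aeval])) (hq (by rw [← AlgHom.comp_apply, MvPolynomial.comp_aeval]))
      | mul_X p n hp =>
        rw [map_mul, aeval_X]
        exact mul_mem (hp (by rw [← AlgHom.comp_apply, MvPolynomial.comp_aeval])) (h2 n)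
    refine Noe_monic _ s (fun j => ⟨aeval x (aeval (Noe_F b t l) (c j)), hmem (c j)⟩) (x i ^ 2) ?_
    have h3 := Noe_aeval_mem hP hcf hrel
    rw [← hx, map_add, map_sum, map_pow, map_pow, aeval_X] at h3
    rw [← h3]
    congr 1
    refine Finset.sum_congr rfl fun j _ => ?_
    rw [map_mul, map_pow, map_pow, aeval_X]
  have halg := Noe_algebraic (a := x) (by rw [hx]; exact Pool.Agent.H17R.adjoin_ratio hcf) β hint
  obtain ⟨z, hz⟩ := hz
  have hind := Noe_indep β halg hz
  rw [hβ, hx] at hind
  refine ⟨hind, ?_⟩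
  rw [hβ, hx] at hint
  exact hint

end Pool.Agent.H39.SZ
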