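import Pool.Agent.H39.SZ.Tan
import Pool.Agent.H39.SZ.Inf
import Pool.Agent.H39.SZ.Noe
import Pool.Agent.H13.SM.Open

/-!
# Project SZ, module Lift4: lifting with a Lipschitz estimate

`ℓ` from `exists_inf`, `τ`, `L` from `exists_tan`, `t a = τ a - (2 * ℓ a y) • ℓ a`,
`B a = quad b (t a) (ℓ a)`.  If `y' b = 1`: `eval y' (B a) - eval y (B a) = t a (y' - y) +
ℓ a y' ^ 2 - ℓ a y ^ 2 = τ a (y' - y) + ℓ a (y' - y) ^ 2` (`eval_quad`).  There is a constant `K ≥ 0` with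
`‖ℓ a v‖ ≤ K ‖v‖` for all `a`, `v` (finite dimension), so for `y'` near `y` on the slice
`‖y' - y‖ ≤ L (‖z - z₀‖ + K ^ 2 ‖y' - y‖ ^ 2)` with `z = B (y')`, `z₀ = B (y)` (replace `L` by `|L|`), and
if moreover `|L| * K ^ 2 * ‖y' - y‖ ≤ 1 / 2` then `‖y' - y‖ ≤ 2 |L| ‖z - z₀‖`.  Now
`Pool.Agent.H13.SM.open_at` (with `noether_quad`, `a i = ratio P i b`, `mem_pts_iff`; model: the end of
the proof of `exists_lift3` in `Pool.Agent.H39.SY.Hold3`) for the neighbourhood `V ∩` (this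
neighbourhood of `y`) gives `y'`.
-/

open MvPolynomial Filter Topology
open Pool.Agent.H17LG.Variety (FunField ratio)
open Pool.Agent.H5.DG (Homog)
open Pool.Agent.H39.SY (Zer)

noncomputable section

namespace Pool.Agent.H39.SZ

private theorem Lift4_bound {M n : ℕ} (l : Fin n → Module.Dual ℂ (Fin (M + 1) → ℂ)) :
    ∃ K : ℝ, 0 ≤ K ∧ ∀ a v, ‖l a v‖ ≤ K * ‖v‖ := by
  refine ⟨∑ a, ‖LinearMap.toContinuousLinearMap (l a)‖,
    Finset.sum_nonneg fun a _ => norm_nonneg _, fun a v => ?_⟩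
  have h1 := (LinearMap.toContinuousLinearMap (l a)).le_opNorm v
  refine h1.trans (mul_le_mul_of_nonneg_right ?_ (norm_nonneg _))
  exact Finset.single_le_sum (f := fun a => ‖LinearMap.toContinuousLinearMap (l a)‖)
    (fun j _ => norm_nonneg _) (Finset.mem_univ a)

theorem exists_lift4 {M n : ℕ} {P : Ideal (MvPolynomial (Fin (M + 1)) ℂ)} [P.IsPrime]
    (hP : Homog P) (hz : ∃ z : Fin n → FunField P, IsTranscendenceBasis ℂ z) {b : Fin (M + 1)}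
    (hb : X b ∉ P) {y : Fin (M + 1) → ℂ} (hy : y ∈ Zer P) (hyb : y b = 1) :
    ∃ (B : Fin n → MvPolynomial (Fin (M + 1)) ℂ) (L : ℝ),
      ∀ V ∈ 𝓝 y, ∀ᶠ z in 𝓝 (fun a => eval y (B a)), ∃ y' ∈ V, y' ∈ Zer P ∧ y' b = 1 ∧
        (∀ a, eval y' (B a) = z a) ∧ ‖y' - y‖ ≤ L * ‖z - fun a => eval y (B a)‖ := by
  have hcb : Pool.Agent.H17GT.coordFun P b ≠ 0 := Pool.Agent.H17R.coordFun_ne_zero_iff.2 hb
  obtain ⟨l, hl⟩ := exists_inf hP hz hb
  obtain ⟨τ, L, hτ⟩ := exists_tan hP hz hb hy hyb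
  obtain ⟨hind, hint⟩ := noether_quad hP hz hb (fun a => τ a - (2 * l a y) • l a) l hl
  have hya : y ∈ Pool.Agent.H13.SM.pts (fun i => ratio P i b) :=
    (Pool.Agent.H13.SM.mem_pts_iff hP hcb).2 ⟨hyb, hy⟩
  obtain ⟨K, hK0, hK⟩ := Lift4_bound l
  refine ⟨fun a => quad b (τ a - (2 * l a y) • l a) (l a), 2 * |L|, ?_⟩
  intro V hV
  have hU : {w : Fin (M + 1) → ℂ | (w ∈ Zer P → w b = 1 →
      ‖w - y‖ ≤ L * ‖fun a => τ a (w - y)‖) ∧ |L| * K ^ 2 * ‖w - y‖ ≤ 1 / 2} ∈ 𝓝 y := by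
    have h1 : ∀ᶠ w in 𝓝 y, |L| * K ^ 2 * ‖w - y‖ ≤ 1 / 2 := by
      have h2 : ContinuousAt (fun w : Fin (M + 1) → ℂ => |L| * K ^ 2 * ‖w - y‖) y := by fun_prop
      have h3 : |L| * K ^ 2 * ‖y - y‖ < 1 / 2 := by
        rw [sub_self, norm_zero, mul_zero]
        norm_num
      exact (h2.eventually_lt continuousAt_const h3).mono fun w hw => hw.le
    exact hτ.and h1
  have himg := Pool.Agent.H13.SM.open_at hind
    (B := fun a => quad b (τ a - (2 * l a y) • l a) (l a)) (fun _ => rfl) hint hya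
    (Filter.inter_mem hV hU)
  filter_upwards [himg] with z hz1
  obtain ⟨y', ⟨hy'a, hy'V, hy'U⟩, hy'z⟩ := hz1
  obtain ⟨hy'b, hy'P⟩ := (Pool.Agent.H13.SM.mem_pts_iff hP hcb).1 hy'a
  refine ⟨y', hy'V, hy'P, hy'b, fun a => congrFun hy'z a, ?_⟩
  have h1 := hy'U.1 hy'P hy'b
  have h2 := hy'U.2
  subst hy'z
  set D : Fin n → ℂ := (fun a => eval y' (quad b (τ a - (2 * l a y) • l a) (l a))) -
    fun a => eval y (quad b (τ a - (2 * l a y) • l a) (l a)) with hD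
  have h3 : ∀ a, τ a (y' - y) = D a - l a (y' - y) ^ 2 := by
    intro a
    rw [hD, Pi.sub_apply, eval_quad, eval_quad, hy'b, hyb, LinearMap.sub_apply,
      LinearMap.sub_apply, LinearMap.smul_apply, LinearMap.smul_apply, map_sub, map_sub,
      smul_eq_mul, smul_eq_mul]
    ring
  have h4 : ‖fun a => τ a (y' - y)‖ ≤ ‖D‖ + K ^ 2 * ‖y' - y‖ ^ 2 := by
    refine (pi_norm_le_iff_of_nonneg (by positivity)).2 fun a => ?_
    rw [h3 a]
    refine (norm_sub_le _ _).trans (add_le_add (norm_le_pi_norm D a) ?_)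
    rw [norm_pow, ← mul_pow]
    exact pow_le_pow_left₀ (norm_nonneg _) (hK a _) 2
  have h5 : ‖y' - y‖ ≤ |L| * (‖D‖ + K ^ 2 * ‖y' - y‖ ^ 2) := by
    refine h1.trans ?_
    exact mul_le_mul (le_abs_self L) h4 (norm_nonneg _) (abs_nonneg L)
  have h6 : |L| * K ^ 2 * ‖y' - y‖ * ‖y' - y‖ ≤ 1 / 2 * ‖y' - y‖ :=
    mul_le_mul_of_nonneg_right h2 (norm_nonneg _)
  nlinarith [h5, h6]

end Pool.Agent.H39.SZ
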