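import Pool.Agent.H17R.Point
import Pool.Agent.H92.GT.Index

/-!
# Project SZ, module DimLe: the dimension of a subvariety of `ℙ^M` is at most `M`
-/

open MvPolynomial
open Pool.Agent.H17GT (coordFun functionField)
open Pool.Agent.H17LG.Variety (FunField ratio)

noncomputable section

namespace Pool.Agent.H39.SZ

theorem dim_le {M r : ℕ} {P : Ideal (MvPolynomial (Fin (M + 1)) ℂ)} [P.IsPrime]
    {b : Fin (M + 1)} (hb : coordFun P b ≠ 0)
    (hz : ∃ z : Fin r → FunField P, IsTranscendenceBasis ℂ z) : r ≤ M := by
  obtain ⟨z, hz⟩ := hz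
  have h1 := Pool.Agent.H17R.adjoin_ratio hb
  have hbb : ratio P b b = 1 := by
    refine Subtype.ext ?_
    show coordFun P b / coordFun P b = 1
    exact div_self hb
  have h2 : IntermediateField.adjoin ℂ (Set.range fun i : Fin M => ratio P (b.succAbove i) b) =
      ⊤ := by
    rw [eq_top_iff, ← h1, IntermediateField.adjoin_le_iff]
    rintro - ⟨i, rfl⟩
    by_cases hi : i = b
    · subst hi
      show ratio P i i ∈ _
      rw [hbb]
      exact one_mem _
    · obtain ⟨j, rfl⟩ := Fin.exists_succAbove_eq hi
      exact IntermediateField.subset_adjoin _ _ ⟨j, rfl⟩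
  have halg : Algebra.IsAlgebraic
      (IntermediateField.adjoin ℂ (Set.range fun i : Fin M => ratio P (b.succAbove i) b))
      (FunField P) := by
    refine ⟨fun x => ?_⟩
    have hx : x ∈ IntermediateField.adjoin ℂ
        (Set.range fun i : Fin M => ratio P (b.succAbove i) b) := by
      rw [h2]
      trivial
    exact isAlgebraic_algebraMap (A := FunField P)
      (⟨x, hx⟩ : IntermediateField.adjoin ℂ
        (Set.range fun i : Fin M => ratio P (b.succAbove i) b))
  obtain ⟨J, hJ⟩ := Pool.Agent.H92.GT.exists_index halg hz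
  have hinj : Function.Injective J := fun i j hij => hJ.1.injective (by
    show ratio P (b.succAbove (J i)) b = ratio P (b.succAbove (J j)) b
    rw [hij])
  simpa using Fintype.card_le_of_injective J hinj

end Pool.Agent.H39.SZ
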