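import Mathlib

/-!
# Project SZ, module Sel: a selection lemma

Vectors `g j`, `j < m`, of a vector space of dimension `d` and linear forms such that every one of them
is zero at few of the `g j`.  One can choose `n` of the vectors such that every one of the linear forms
is zero at most `d` of them: choose them one after the other such that the vectors of every subset
with a common zero among the linear forms are linearly independent.
-/

noncomputable section

namespace Pool.Agent.H39.SZ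

variable {V : Type} [AddCommGroup V] [Module ℂ V]

private theorem sel_step {m n : ℕ} {g : Fin m → V} {𝒴 : Set (V →ₗ[ℂ] ℂ)} (hm : 2 ^ (n + 1) ≤ m)
    (h : ∀ y ∈ 𝒴, {j | y (g j) = 0}.ncard * 2 ^ (n + 1) ≤ m) {T : Finset (Fin m)}
    (hT : T.card < n) : ∃ j ∉ T, ∀ S ⊆ T, (∃ y ∈ 𝒴, ∀ i ∈ S, y (g i) = 0) →
      g j ∉ Submodule.span ℂ (g '' (S : Set (Fin m))) := by
  classical
  by_contra hcon
  push Not at hcon
  -- all the other indices are bad
  have h1 : ∀ j ∉ T, ∃ S ∈ T.powerset, (∃ y ∈ 𝒴, ∀ i ∈ S, y (g i) = 0) ∧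
      g j ∈ Submodule.span ℂ (g '' (S : Set (Fin m))) := by
    intro j hj
    obtain ⟨S, hS, hy, hg⟩ := hcon j hj
    exact ⟨S, Finset.mem_powerset.2 hS, hy, hg⟩
  obtain ⟨K, hK⟩ : ∃ K : Finset (Fin m) → Finset (Fin m), ∀ S : Finset (Fin m), (∃ y ∈ 𝒴, ∀ i ∈ S, y (g i) = 0) →
      (∀ j, g j ∈ Submodule.span ℂ (g '' (S : Set (Fin m))) → j ∈ K S) ∧
      (K S).card * 2 ^ (n + 1) ≤ m := by
    have h2 : ∀ S : Finset (Fin m), ∃ K : Finset (Fin m), (∃ y ∈ 𝒴, ∀ i ∈ S, y (g i) = 0) →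
        (∀ j, g j ∈ Submodule.span ℂ (g '' (S : Set (Fin m))) → j ∈ K) ∧
        K.card * 2 ^ (n + 1) ≤ m := by
      intro S
      by_cases hS : ∃ y ∈ 𝒴, ∀ i ∈ S, y (g i) = 0
      · obtain ⟨y, hy, hyS⟩ := hS
        refine ⟨Finset.univ.filter fun j => y (g j) = 0, fun _ => ⟨fun j hj => ?_, ?_⟩⟩
        · rw [Finset.mem_filter]
          refine ⟨Finset.mem_univ _, ?_⟩
          have h3 : Submodule.span ℂ (g '' (S : Set (Fin m))) ≤ LinearMap.ker y := by
            rw [Submodule.span_le]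
            rintro - ⟨i, hi, rfl⟩
            exact hyS i hi
          exact h3 hj
        · have h3 := h y hy
          have h4 : {j | y (g j) = 0}.ncard = (Finset.univ.filter fun j => y (g j) = 0).card := by
            rw [← Set.ncard_coe_finset]
            congr 1
            ext j
            simp
          rwa [h4] at h3
      · exact ⟨∅, fun h => absurd h hS⟩
    choose K hK using h2
    exact ⟨K, hK⟩
  have h2 : (Finset.univ : Finset (Fin m)) ⊆ T ∪ (T.powerset.filter fun S =>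
      ∃ y ∈ 𝒴, ∀ i ∈ S, y (g i) = 0).biUnion K := by
    intro j _
    by_cases hj : j ∈ T
    · exact Finset.mem_union_left _ hj
    · obtain ⟨S, hS, hy, hg⟩ := h1 j hj
      exact Finset.mem_union_right _ (Finset.mem_biUnion.2
        ⟨S, Finset.mem_filter.2 ⟨hS, hy⟩, (hK S hy).1 j hg⟩)
  have h3 : m ≤ T.card + ((T.powerset.filter fun S =>
      ∃ y ∈ 𝒴, ∀ i ∈ S, y (g i) = 0).biUnion K).card := by
    have h4 := (Finset.card_le_card h2).trans (Finset.card_union_le _ _)
    rwa [Finset.card_univ, Fintype.card_fin] at h4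
  have h4 : ((T.powerset.filter fun S => ∃ y ∈ 𝒴, ∀ i ∈ S, y (g i) = 0).biUnion K).card *
      2 ^ (n + 1) ≤ 2 ^ T.card * m := by
    calc _ ≤ (∑ S ∈ T.powerset.filter fun S => ∃ y ∈ 𝒴, ∀ i ∈ S, y (g i) = 0, (K S).card) *
          2 ^ (n + 1) := Nat.mul_le_mul_right _ Finset.card_biUnion_le
      _ = ∑ S ∈ T.powerset.filter fun S => ∃ y ∈ 𝒴, ∀ i ∈ S, y (g i) = 0,
          (K S).card * 2 ^ (n + 1) := Finset.sum_mul _ _ _
      _ ≤ ∑ S ∈ T.powerset.filter fun S => ∃ y ∈ 𝒴, ∀ i ∈ S, y (g i) = 0, m :=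
        Finset.sum_le_sum fun S hS => (hK S (Finset.mem_filter.1 hS).2).2
      _ = (T.powerset.filter fun S => ∃ y ∈ 𝒴, ∀ i ∈ S, y (g i) = 0).card * m := by
        rw [Finset.sum_const, smul_eq_mul]
      _ ≤ 2 ^ T.card * m := Nat.mul_le_mul_right _ (by
        rw [← Finset.card_powerset]
        exact Finset.card_filter_le _ _)
  have h5 : 2 ^ T.card * m * 2 ≤ 2 ^ n * m := by
    have h6 : 2 ^ T.card * 2 ≤ 2 ^ n := by
      rw [← pow_succ]
      exact Nat.pow_le_pow_right (by norm_num) hT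
    calc 2 ^ T.card * m * 2 = (2 ^ T.card * 2) * m := by ring
      _ ≤ 2 ^ n * m := Nat.mul_le_mul_right _ h6
  have h6 : n < 2 ^ n := Nat.lt_two_pow_self
  have h7 : 2 ^ (n + 1) = 2 ^ n * 2 := pow_succ 2 n
  obtain ⟨A, hA⟩ : ∃ A, A = ((T.powerset.filter fun S =>
      ∃ y ∈ 𝒴, ∀ i ∈ S, y (g i) = 0).biUnion K).card := ⟨_, rfl⟩
  rw [← hA] at h3 h4
  have h8 : 0 < 2 ^ n := by positivity
  have h9 : A * 4 ≤ m := by
    by_contra h10
    push Not at h10
    have h11 : A * 2 ^ (n + 1) * 2 ≤ 2 ^ n * m := (Nat.mul_le_mul_right 2 h4).trans h5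
    have h12 : A * 2 ^ (n + 1) * 2 = 2 ^ n * (A * 4) := by
      rw [h7]
      ring
    rw [h12] at h11
    have h13 := Nat.le_of_mul_le_mul_left h11 h8
    omega
  omega

/-- **The selection lemma.** -/
theorem exists_selection [FiniteDimensional ℂ V] {m n : ℕ} {g : Fin m → V}
    {𝒴 : Set (V →ₗ[ℂ] ℂ)} (hm : 2 ^ (n + 1) ≤ m)
    (h : ∀ y ∈ 𝒴, {j | y (g j) = 0}.ncard * 2 ^ (n + 1) ≤ m) :
    ∃ ι : Fin n → Fin m, Function.Injective ι ∧
      ∀ y ∈ 𝒴, {i | y (g (ι i)) = 0}.ncard ≤ Module.finrank ℂ V := by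
  classical
  have key : ∀ t ≤ n, ∃ T : Finset (Fin m), T.card = t ∧ ∀ S ⊆ T,
      (∃ y ∈ 𝒴, ∀ i ∈ S, y (g i) = 0) → LinearIndepOn ℂ g (S : Set (Fin m)) := by
    intro t
    induction t with
    | zero =>
      intro _
      refine ⟨∅, rfl, fun S hS _ => ?_⟩
      rw [Finset.subset_empty.1 hS, Finset.coe_empty]
      exact linearIndepOn_empty ℂ g
    | succ t ih =>
      intro ht
      obtain ⟨T, hTc, hT⟩ := ih (by omega)
      obtain ⟨j, hjT, hj⟩ := sel_step (n := n) hm h (T := T) (by omega)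
      refine ⟨insert j T, by rw [Finset.card_insert_of_notMem hjT, hTc], ?_⟩
      intro S hS hy
      by_cases hjS : j ∈ S
      · have h1 : S.erase j ⊆ T := by
          intro i hi
          have h2 := hS (Finset.mem_of_mem_erase hi)
          rcases Finset.mem_insert.1 h2 with h3 | h3
          · exact absurd h3 (Finset.ne_of_mem_erase hi)
          · exact h3
        have hy' : ∃ y ∈ 𝒴, ∀ i ∈ S.erase j, y (g i) = 0 := by
          obtain ⟨y, hy, h2⟩ := hy
          exact ⟨y, hy, fun i hi => h2 i (Finset.mem_of_mem_erase hi)⟩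
        have h2 := (hT _ h1 hy').insert (hj _ h1 hy')
        rwa [← Finset.coe_insert, Finset.insert_erase hjS] at h2
      · refine hT S (fun i hi => ?_) hy
        rcases Finset.mem_insert.1 (hS hi) with h3 | h3
        · exact absurd (h3 ▸ hi) hjS
        · exact h3
  obtain ⟨T, hTc, hT⟩ := key n le_rfl
  refine ⟨T.orderEmbOfFin hTc, (T.orderEmbOfFin hTc).injective, fun y hy => ?_⟩
  have h1 := hT (T.filter fun j => y (g j) = 0) (Finset.filter_subset _ _)
    ⟨y, hy, fun i hi => (Finset.mem_filter.1 hi).2⟩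
  have h2 : (T.filter fun j => y (g j) = 0).card ≤ Module.finrank ℂ V := by
    have h3 := LinearIndependent.fintype_card_le_finrank h1
    simpa using h3
  refine le_trans ?_ h2
  rw [← Set.ncard_coe_finset]
  refine Set.ncard_le_ncard_of_injOn (T.orderEmbOfFin hTc) ?_
    ((T.orderEmbOfFin hTc).injective.injOn) (Finset.finite_toSet _)
  intro i hi
  rw [Finset.mem_coe, Finset.mem_filter]
  exact ⟨Finset.orderEmbOfFin_mem T hTc i, hi⟩

end Pool.Agent.H39.SZ
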