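import Pool.Agent.H39.SZ.Count4
import Pool.Agent.H39.SZ.DimLe
import Pool.Agent.H39.SZ.Sel
import Pool.Agent.H5.DG3.Main3

/-!
# Project SZ, module Main: the theorem on morphisms without a hypothesis on the position

`Y` is a projective variety, given by `P`, and the `G j = 0` are integral sections of `Y`.  The main
theorem on morphisms to `Y` (module `Pool.Agent.H5.DG3.Main3`) is true without any hypothesis on the
number of the `G j` which vanish at a point of `Y` if for every point `y` of `Y` where more than `k` of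
the `G j` vanish there is a *model*: a projective variety `X` with `dim X = dim Y ≥ 1` and a finite
morphism `f : X → Y` such that the inverse images of all the `G j = 0` have multiplicities at least
two outside of a closed subset `B` of `X`, `X` is smooth at all points over `y` and `B` has no points
over `y`.
-/

open MvPolynomial
open Pool.Agent.H17 (PN VanishesAt ZariskiClosedIn)
open Pool.Agent.H17GT (coordFun)
open Pool.Agent.H17LG.Variety (FunField)
open Pool.Agent.H5.DG (Homog IntegralSection AtMostThrough variety)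
open Pool.Agent.H5.DG3
open Pool.Agent.H13.SM (conTan)

noncomputable section

namespace Pool.Agent.H39.SZ

variable {N M m s : ℕ}

/-- The variety of dimension `r` given by `I` is smooth at the point `x`: the Zariski tangent space
of its cone at a representative of `x` has dimension at most `r + 1`. -/
def SmoothAt (I : Ideal (MvPolynomial (Fin (N + 1)) ℂ)) (r : ℕ) (x : PN N) : Prop :=
  Module.finrank ℂ (conTan I x.rep) ≤ r + 1

/-- The projective variety `X` of dimension `r` given by `I`, with the finite morphism `F` to the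
variety `Y` given by `P`, is a model at the point `y` of `Y`: the inverse images of the hypersurfaces
`G j = 0` have multiplicities at least two outside of the closed set `B`, and the points over `y` are
smooth points of `X` and are not in `B`. -/
structure ModelAt (r : ℕ) (P : Ideal (MvPolynomial (Fin (M + 1)) ℂ))
    (G : Fin m → MvPolynomial (Fin (M + 1)) ℂ) (y : PN M)
    (I : Ideal (MvPolynomial (Fin (N + 1)) ℂ)) [I.IsPrime] (B : Set (PN N))
    (F : Fin s → Fin (M + 1) → MvPolynomial (Fin (N + 1)) ℂ) : Prop where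
  homog : Homog I
  dim : ∃ z : Fin r → FunField I, IsTranscendenceBasis ℂ z
  closed : ZariskiClosedIn Set.univ B
  morphism : IsMorphism I (variety I) F
  maps : ∀ x ∈ variety I, morph F x ∈ variety P
  finite : ∀ y' : PN M, {x | x ∈ variety I ∧ morph F x = y'}.Finite
  mult : ∀ x ∈ variety I, x ∉ B → ∀ j, PullbackMult 2 I F (G j) x
  smooth : ∀ x ∈ variety I, morph F x = y → x ∉ B ∧ SmoothAt I r x

/-- There are models of the dimension of `Y`, at least `1`, at all points of `Y` where more than `k`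
of the forms vanish. -/
def HasModels (k : ℕ) (P : Ideal (MvPolynomial (Fin (M + 1)) ℂ)) [P.IsPrime]
    (G : Fin m → MvPolynomial (Fin (M + 1)) ℂ) : Prop :=
  ∀ y ∈ variety P, k < {j | VanishesAt (G j) y}.ncard →
    ∃ r, 1 ≤ r ∧ (∃ z : Fin r → FunField P, IsTranscendenceBasis ℂ z) ∧
      ∃ (N s : ℕ) (I : Ideal (MvPolynomial (Fin (N + 1)) ℂ)) (_ : I.IsPrime) (B : Set (PN N))
        (F : Fin s → Fin (M + 1) → MvPolynomial (Fin (N + 1)) ℂ), ModelAt r P G y I B F

theorem AtMostThrough.hasModels {k : ℕ} {P : Ideal (MvPolynomial (Fin (M + 1)) ℂ)} [P.IsPrime]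
    {G : Fin m → MvPolynomial (Fin (M + 1)) ℂ} (h : AtMostThrough k P G) : HasModels k P G :=
  fun y hy hk => absurd hk (not_lt.2 (h y hy))

private theorem Main_empty {N : ℕ} : ZariskiClosedIn Set.univ (∅ : Set (PN N)) := by
  refine ⟨{1}, ?_, ?_⟩
  · intro T hT
    rw [Set.mem_singleton_iff] at hT
    subst hT
    exact ⟨0, isHomogeneous_one _ _⟩
  · ext x
    simp [VanishesAt]

theorem ModelAt.ramified {r : ℕ} {P : Ideal (MvPolynomial (Fin (M + 1)) ℂ)}
    {G : Fin m → MvPolynomial (Fin (M + 1)) ℂ} {y : PN M}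
    {I : Ideal (MvPolynomial (Fin (N + 1)) ℂ)} [I.IsPrime] {B : Set (PN N)}
    {F : Fin s → Fin (M + 1) → MvPolynomial (Fin (N + 1)) ℂ} (h : ModelAt r P G y I B F) :
    RamifiedMorphism 0 P G I ∅ ∅ F where
  homog := h.homog
  closedB := Main_empty
  closedZ := Main_empty
  morphism := ⟨h.morphism.hom, fun x hx => h.morphism.base x hx.1, h.morphism.compat⟩
  maps := fun x hx => h.maps x hx.1
  finite := fun y => (h.finite y).subset fun _ hx => ⟨hx.1.1, hx.2.2⟩
  mult := fun x hx j => by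
    obtain ⟨α, a, ha⟩ := h.morphism.base x hx.1
    refine ⟨α, ⟨a, ha⟩, 1, 0, isHomogeneous_one _ _, ?_, ?_⟩
    · simp [VanishesAt]
    · rw [pow_zero, Ideal.one_eq_top, top_sup_eq]
      trivial

/-- Smooth projective varieties of the dimension of `Y` with a finite morphism to `Y` such that all
the multiplicities are at least two are models at all points. -/
theorem hasModels_of_smooth {r : ℕ} (hr : 1 ≤ r) {P : Ideal (MvPolynomial (Fin (M + 1)) ℂ)}
    [P.IsPrime] (hzP : ∃ z : Fin r → FunField P, IsTranscendenceBasis ℂ z)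
    {G : Fin m → MvPolynomial (Fin (M + 1)) ℂ} {I : Ideal (MvPolynomial (Fin (N + 1)) ℂ)}
    [hI : I.IsPrime] {F : Fin s → Fin (M + 1) → MvPolynomial (Fin (N + 1)) ℂ}
    (hz : ∃ z : Fin r → FunField I, IsTranscendenceBasis ℂ z) (h : RamifiedMorphism 2 P G I ∅ ∅ F)
    (hsm : ∀ x ∈ variety I, SmoothAt I r x) (k : ℕ) : HasModels k P G := fun y _ _ =>
  ⟨r, hr, hzP, N, s, I, hI, ∅, F, {
    homog := h.homog
    dim := hz
    closed := h.closedB
    morphism := ⟨h.morphism.hom, fun x hx => h.morphism.base x ⟨hx, fun h => h⟩,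
      h.morphism.compat⟩
    maps := fun x hx => h.maps x ⟨hx, fun h => h⟩
    finite := fun y' => (h.finite y').subset fun _ hx => ⟨⟨hx.1, fun h => h⟩, fun h => h, hx.2⟩
    mult := fun x hx _ j => h.mult x ⟨hx, fun h => h⟩ j
    smooth := fun x hx _ => ⟨fun h => h, hsm x hx⟩ }⟩

private theorem dim_le_of_mem {r : ℕ} {P : Ideal (MvPolynomial (Fin (M + 1)) ℂ)} [P.IsPrime]
    {y : PN M} (hy : y ∈ variety P) (hzP : ∃ z : Fin r → FunField P, IsTranscendenceBasis ℂ z) :
    r ≤ M := by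
  obtain ⟨b, hb⟩ : ∃ b, y.rep b ≠ 0 := Function.ne_iff.1 y.rep_nonzero
  refine dim_le (b := b) (Pool.Agent.H17R.coordFun_ne_zero_iff.2 fun hX => hb ?_) hzP
  have h3 := hy _ hX 1 (isHomogeneous_X ℂ b)
  have h4 : eval y.rep (X b : MvPolynomial (Fin (M + 1)) ℂ) = 0 := h3
  rwa [eval_X] at h4

theorem ramifiedMorphism_comp {N n q s : ℕ} {P : Ideal (MvPolynomial (Fin (M + 1)) ℂ)}
    {G : Fin m → MvPolynomial (Fin (M + 1)) ℂ} {I : Ideal (MvPolynomial (Fin (N + 1)) ℂ)}
    {B Z : Set (PN N)} {F : Fin s → Fin (M + 1) → MvPolynomial (Fin (N + 1)) ℂ}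
    (ι : Fin n → Fin m) (h : RamifiedMorphism q P G I B Z F) :
    RamifiedMorphism q P (fun i => G (ι i)) I B Z F :=
  ⟨h.homog, h.closedB, h.closedZ, h.morphism, h.maps, h.finite, fun x hx i => h.mult x hx (ι i)⟩

theorem morphismTheorem_of_comp {n q : ℕ} {P : Ideal (MvPolynomial (Fin (M + 1)) ℂ)} [P.IsPrime]
    {G : Fin m → MvPolynomial (Fin (M + 1)) ℂ} {Δ : MvPolynomial (Fin (M + 1)) ℂ}
    (ι : Fin n → Fin m) (h : MorphismTheorem q P (fun i => G (ι i)) Δ) :
    MorphismTheorem q P G Δ where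
  orbifold :=
    { picard := fun f hf hfP hm hΔ => h.orbifold.picard f hf hfP (fun i => hm (ι i)) hΔ
      brody := fun f hf hfP hm hΔ => h.orbifold.brody f hf hfP (fun i => hm (ι i)) hΔ }
  morphisms := fun N s I _ B Z F hF => h.morphisms N s I B Z F (ramifiedMorphism_comp ι hF)

/-- If there are models at all points where more than `m / 2 ^ (n + 1)` of the `m` forms vanish, then
some `n` of them form a family such that only a bounded number of its members vanish at any point. -/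
theorem exists_subfamily {δ n : ℕ} (hm : 2 ^ (n + 1) ≤ m)
    {P : Ideal (MvPolynomial (Fin (M + 1)) ℂ)} [P.IsPrime] (hP : Homog P)
    {G : Fin m → MvPolynomial (Fin (M + 1)) ℂ}
    (hdeg : ∀ j, ∃ e, 1 ≤ e ∧ e ≤ δ ∧ (G j).IsHomogeneous e)
    (hne : ∀ i j, i ≠ j → ∀ c : ℂ, G i - C c * G j ∉ P) (hint : ∀ j, IntegralSection P (G j))
    (h : HasModels (m / 2 ^ (n + 1)) P G) :
    ∃ ι : Fin n → Fin m, Function.Injective ι ∧ AtMostThrough
      (max (2 * M) (Module.finrank ℂ (restrictTotalDegree (Fin (M + 1)) ℂ δ))) P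
      (fun i => G (ι i)) := by
  have hV : ∀ j, G j ∈ restrictTotalDegree (Fin (M + 1)) ℂ δ := fun j => by
    obtain ⟨e, -, he, hG⟩ := hdeg j
    rw [mem_restrictTotalDegree]
    exact hG.totalDegree_le.trans he
  obtain ⟨ev, hev⟩ : ∃ ev : PN M → (restrictTotalDegree (Fin (M + 1)) ℂ δ) →ₗ[ℂ] ℂ,
      ∀ y v, ev y v = eval y.rep (v : MvPolynomial (Fin (M + 1)) ℂ) :=
    ⟨fun y => (MvPolynomial.aeval y.rep : MvPolynomial (Fin (M + 1)) ℂ →ₐ[ℂ] ℂ).toLinearMap.comp
      (restrictTotalDegree (Fin (M + 1)) ℂ δ).subtype, fun y v => rfl⟩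
  obtain ⟨ι, hι, hsel⟩ := exists_selection (V := restrictTotalDegree (Fin (M + 1)) ℂ δ)
    (g := fun j => ⟨G j, hV j⟩)
    (𝒴 := ev '' {y | y ∈ variety P ∧ {j | VanishesAt (G j) y}.ncard ≤ m / 2 ^ (n + 1)}) hm (by
      rintro - ⟨y, ⟨-, hy⟩, rfl⟩
      have h1 : {j | ev y ⟨G j, hV j⟩ = 0} = {j | VanishesAt (G j) y} := by
        ext j
        rw [Set.mem_ofPred_eq, hev]
        rfl
      rw [h1]
      exact (Nat.le_div_iff_mul_le (by positivity)).1 hy)
  refine ⟨ι, hι, fun y hy => ?_⟩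
  by_cases hk : m / 2 ^ (n + 1) < {j | VanishesAt (G j) y}.ncard
  · have h1 : {i | VanishesAt (G (ι i)) y}.ncard ≤ {j | VanishesAt (G j) y}.ncard :=
      Set.ncard_le_ncard_of_injOn ι (fun i hi => hi) hι.injOn (Set.toFinite _)
    refine h1.trans (le_trans ?_ (le_max_left _ _))
    have hGh : ∀ j, ∃ d, (G j).IsHomogeneous d := fun j => by
      obtain ⟨e, -, -, he⟩ := hdeg j
      exact ⟨e, he⟩
    obtain ⟨r, hr, hzP, N, s, I, hI, B, F, hmod⟩ := h y hy hk
    refine (count_le hr hP hzP hGh hne hint hmod.dim hmod.ramified hmod.closed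
      (fun x hx => hmod.mult x hx.1 hx.2) hy fun x hx hxy => hmod.smooth x hx hxy).trans ?_
    exact Nat.mul_le_mul_left 2 (dim_le_of_mem hy hzP)
  · have h1 : {i | VanishesAt (G (ι i)) y} = {i | ev y ⟨G (ι i), hV (ι i)⟩ = 0} := by
      ext i
      rw [Set.mem_ofPred_eq, Set.mem_ofPred_eq, hev]
      rfl
    rw [h1]
    exact (hsel _ ⟨y, ⟨hy, not_lt.1 hk⟩, rfl⟩).trans (le_max_right _ _)

/-- **The main theorem on morphisms, models.** -/
theorem main_models (M δ : ℕ) : ∃ N₀ : ℕ, 1 ≤ N₀ ∧ ∀ (m : ℕ)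
    (P : Ideal (MvPolynomial (Fin (M + 1)) ℂ)) [P.IsPrime]
    (G : Fin m → MvPolynomial (Fin (M + 1)) ℂ), N₀ ≤ m → Homog P →
    (∀ j, ∃ e, 1 ≤ e ∧ e ≤ δ ∧ (G j).IsHomogeneous e) →
    (∀ i j, i ≠ j → ∀ c : ℂ, G i - C c * G j ∉ P) → (∀ j, IntegralSection P (G j)) →
    HasModels (m / N₀) P G →
    ∃ (d : ℕ) (Δ : MvPolynomial (Fin (M + 1)) ℂ), Δ ∉ P ∧ Δ.IsHomogeneous d ∧
      MorphismTheorem 2 P G Δ := by
  obtain ⟨n, hn⟩ := main_morphisms M δ
    (max (2 * M) (Module.finrank ℂ (restrictTotalDegree (Fin (M + 1)) ℂ δ)))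
  refine ⟨2 ^ (n + 1), Nat.one_le_two_pow, fun m P _ G hm hP hdeg hne hint hmod => ?_⟩
  obtain ⟨ι, hι, h⟩ := exists_subfamily hm hP hdeg hne hint hmod
  obtain ⟨d, Δ, hΔ, hΔh, h1⟩ := hn n P (fun i => G (ι i)) le_rfl hP (fun i => hdeg (ι i))
    (fun i j hij => hne _ _ fun h => hij (hι h)) (fun i => hint (ι i)) h
  exact ⟨d, Δ, hΔ, hΔh, morphismTheorem_of_comp ι h1⟩

end Pool.Agent.H39.SZ
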