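import Pool.Agent.H39.SZ.Cone
import Pool.Agent.H39.SZ.Lin
import Pool.Agent.H39.SZ.Rel

/-!
# Project SZ, module Tan: projections which are transversal to the tangent cone

`V` = the set of all `v` such that there are sequences `u : ℕ → Fin (M + 1) → ℂ`, `c : ℕ → ℂ` with
`u k ∈ Zer P`, `u k b = 1`, `u k → y`, `c k • (u k - y) → v` (the tangent cone).

`hrel` of `exists_forms`: for `l : Fin (r + 1) → Module.Dual ℂ _` take `exists_rel_slice` for
`Λ a = lin (l a) - C (l a y)`, so that `eval y' (Λ a) = l a (y' - y)` (`eval_lin`): `Q ≠ 0`,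
`eval (fun a => l a (y' - y)) Q = 0` on the slice.  Let `e` be minimal with
`Q' = homogeneousComponent e Q ≠ 0` (`sum_homogeneousComponent`, `Nat.find`).  For `v ∈ V` let
`w k = fun a => l a (u k - y)`, so `w k → 0`, `c k • w k → fun a => l a v` (`l a` is continuous:
`LinearMap.continuous_of_finiteDimensional`).  `0 = c k ^ e * eval (w k) Q = eval (c k • w k) Q' +
∑ (d > e) c k ^ e * eval (w k) (homogeneousComponent d Q)`, and for `d = e + d'`, `d' ≥ 1`, there is a
constant `K` with `‖c k ^ e * eval (w k) (homogeneousComponent d Q)‖ ≤ K * ‖c k • w k‖ ^ e * ‖w k‖ ^ d'`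
(every monomial of degree `d` is at most `‖w k‖ ^ d`), which tends to `0`; so
`eval (fun a => l a v) Q' = 0` (uniqueness of limits).

So there are `r` linear forms `l` such that `v ∈ V`, `l a v = 0` for all `a`, implies `v = 0`.  If the
conclusion is false for this `l` then for every `k : ℕ` (with `L = k`) every neighbourhood of `y`
contains `y' ∈ Zer P`, `y' b = 1`, `‖y' - y‖ > k ‖(l a (y' - y))_a‖`: a sequence `u k → y` with
`‖u k - y‖ > k * ‖(l a (u k - y))_a‖` (so `u k ≠ y`); the unit vectors `(‖u k - y‖)⁻¹ • (u k - y)` have a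
convergent subsequence (`IsCompact.tendsto_subseq`, the unit sphere of `Fin (M + 1) → ℂ` is compact)
with limit `v`, `‖v‖ = 1`, `v ∈ V` and `l a v = 0`: a contradiction.
-/

open MvPolynomial Filter Topology
open Pool.Agent.H17LG.Variety (FunField)
open Pool.Agent.H5.DG (Homog)
open Pool.Agent.H39.SY (Zer)

noncomputable section

namespace Pool.Agent.H39.SZ

/-- Evaluation of a form at a multiple of a vector. -/
private theorem Tan_smul {s d : ℕ} {Q : MvPolynomial (Fin s) ℂ} (hQ : Q.IsHomogeneous d) (c : ℂ)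
    (x : Fin s → ℂ) : eval (c • x) Q = c ^ d * eval x Q := by
  rw [MvPolynomial.eval_eq', MvPolynomial.eval_eq', Finset.mul_sum]
  apply Finset.sum_congr rfl
  intro m hm
  have hdeg : ∑ i, m i = d := by
    have := hQ (MvPolynomial.mem_support_iff.1 hm)
    rw [Finsupp.weight_apply] at this
    simpa [Finsupp.sum_fintype] using this
  have h1 : ∏ i, (c • x) i ^ m i = c ^ d * ∏ i, x i ^ m i := by
    rw [← hdeg, ← Finset.prod_pow_eq_pow_sum, ← Finset.prod_mul_distrib]
    exact Finset.prod_congr rfl fun i _ => by simp [mul_pow]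
  rw [h1]
  ring

/-- A bound for the values of a form. -/
private theorem Tan_bound {s d : ℕ} {Q : MvPolynomial (Fin s) ℂ} (hQ : Q.IsHomogeneous d) :
    ∃ K : ℝ, 0 ≤ K ∧ ∀ x : Fin s → ℂ, ‖eval x Q‖ ≤ K * ‖x‖ ^ d := by
  refine ⟨∑ m ∈ Q.support, ‖coeff m Q‖, Finset.sum_nonneg fun _ _ => norm_nonneg _, fun x => ?_⟩
  rw [MvPolynomial.eval_eq', Finset.sum_mul]
  refine (norm_sum_le _ _).trans (Finset.sum_le_sum fun m hm => ?_)
  rw [norm_mul]
  refine mul_le_mul_of_nonneg_left ?_ (norm_nonneg _)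
  have hdeg : ∑ i, m i = d := by
    have := hQ (MvPolynomial.mem_support_iff.1 hm)
    rw [Finsupp.weight_apply] at this
    simpa [Finsupp.sum_fintype] using this
  rw [← hdeg, ← Finset.prod_pow_eq_pow_sum, norm_prod]
  refine Finset.prod_le_prod (fun i _ => norm_nonneg _) fun i _ => ?_
  rw [norm_pow]
  exact pow_le_pow_left₀ (norm_nonneg _) (norm_le_pi_norm x i) _

/-- The lowest component of an equation holds on the tangent cone. -/
private theorem Tan_limit {s : ℕ} {Q : MvPolynomial (Fin s) ℂ} {e : ℕ}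
    (he : homogeneousComponent e Q ≠ 0) (hlow : ∀ d, d < e → homogeneousComponent d Q = 0)
    {w : ℕ → Fin s → ℂ} {c : ℕ → ℂ} {v : Fin s → ℂ} (hw0 : Tendsto w atTop (𝓝 0))
    (hcw : Tendsto (fun k => c k • w k) atTop (𝓝 v)) (hQ : ∀ k, eval (w k) Q = 0) :
    eval v (homogeneousComponent e Q) = 0 := by
  have hterm : ∀ d, Tendsto (fun k => c k ^ e * eval (w k) (homogeneousComponent d Q)) atTop
      (𝓝 (if d = e then eval v (homogeneousComponent e Q) else 0)) := by
    intro d
    rcases lt_trichotomy d e with hd | hd | hd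
    · rw [if_neg hd.ne, hlow d hd]
      simp
    · subst hd
      rw [if_pos rfl]
      have h1 : ∀ k, c k ^ d * eval (w k) (homogeneousComponent d Q) =
          eval (c k • w k) (homogeneousComponent d Q) := fun k =>
        (Tan_smul (homogeneousComponent_isHomogeneous d Q) (c k) (w k)).symm
      simp only [h1]
      have h2 : Continuous fun x : Fin s → ℂ => eval x (homogeneousComponent d Q) :=
        MvPolynomial.continuous_eval _
      exact (h2.tendsto v).comp hcw
    · rw [if_neg hd.ne']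
      obtain ⟨K, hK0, hK⟩ := Tan_bound (homogeneousComponent_isHomogeneous d Q)
      rw [tendsto_zero_iff_norm_tendsto_zero]
      have h1 : Tendsto (fun k => K * (‖c k • w k‖ ^ e * ‖w k‖ ^ (d - e))) atTop (𝓝 0) := by
        have h2 : Tendsto (fun k => ‖c k • w k‖ ^ e) atTop (𝓝 (‖v‖ ^ e)) := (hcw.norm).pow e
        have h3 : Tendsto (fun k => ‖w k‖ ^ (d - e)) atTop (𝓝 0) := by
          have h4 := (hw0.norm).pow (d - e)
          rwa [norm_zero, zero_pow (by omega)] at h4
        have h4 := (h2.mul h3).const_mul K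
        rwa [mul_zero, mul_zero] at h4
      refine squeeze_zero (fun _ => norm_nonneg _) (fun k => ?_) h1
      rw [norm_mul, norm_pow, norm_smul, mul_pow]
      calc ‖c k‖ ^ e * ‖eval (w k) (homogeneousComponent d Q)‖
          ≤ ‖c k‖ ^ e * (K * ‖w k‖ ^ d) := mul_le_mul_of_nonneg_left (hK _) (by positivity)
        _ = K * (‖c k‖ ^ e * ‖w k‖ ^ e * ‖w k‖ ^ (d - e)) := by
            have h5 : ‖w k‖ ^ d = ‖w k‖ ^ e * ‖w k‖ ^ (d - e) := by
              rw [← pow_add]; congr 1; omega
            rw [h5]; ring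
  have hsum := tendsto_finsetSum (Finset.range (Q.totalDegree + 1)) fun d _ => hterm d
  have h0 : (fun k => ∑ d ∈ Finset.range (Q.totalDegree + 1),
      c k ^ e * eval (w k) (homogeneousComponent d Q)) = fun _ => 0 := by
    funext k
    rw [← Finset.mul_sum, ← map_sum, sum_homogeneousComponent, hQ k, mul_zero]
  rw [h0, Finset.sum_ite_eq' (Finset.range (Q.totalDegree + 1)) e] at hsum
  have hmem : e ∈ Finset.range (Q.totalDegree + 1) := by
    rw [Finset.mem_range]
    by_contra hcon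
    exact he (homogeneousComponent_eq_zero e Q (by omega))
  rw [if_pos hmem] at hsum
  exact tendsto_nhds_unique hsum tendsto_const_nhds

theorem exists_tan {M r : ℕ} {P : Ideal (MvPolynomial (Fin (M + 1)) ℂ)} [P.IsPrime] (hP : Homog P)
    (hz : ∃ z : Fin r → FunField P, IsTranscendenceBasis ℂ z) {b : Fin (M + 1)} (hb : X b ∉ P)
    {y : Fin (M + 1) → ℂ} (hy : y ∈ Zer P) (hyb : y b = 1) :
    ∃ (l : Fin r → Module.Dual ℂ (Fin (M + 1) → ℂ)) (L : ℝ), ∀ᶠ y' in 𝓝 y, y' ∈ Zer P → y' b = 1 →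
      ‖y' - y‖ ≤ L * ‖fun a => l a (y' - y)‖ := by
  classical
  let V : Set (Fin (M + 1) → ℂ) := {v | ∃ (u : ℕ → Fin (M + 1) → ℂ) (c : ℕ → ℂ),
    (∀ k, u k ∈ Zer P) ∧ (∀ k, u k b = 1) ∧ Tendsto u atTop (𝓝 y) ∧
      Tendsto (fun k => c k • (u k - y)) atTop (𝓝 v)}
  have hcont : ∀ l : Module.Dual ℂ (Fin (M + 1) → ℂ), Continuous l := fun l =>
    LinearMap.continuous_of_finiteDimensional l
  have hrel : ∀ l : Fin (r + 1) → Module.Dual ℂ (Fin (M + 1) → ℂ),
      ∃ (e : ℕ) (Q : MvPolynomial (Fin (r + 1)) ℂ), Q ≠ 0 ∧ Q.IsHomogeneous e ∧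
        ∀ v ∈ V, eval (fun a => l a v) Q = 0 := by
    intro l
    obtain ⟨Q, hQ0, hQ⟩ := exists_rel_slice hP hz hb fun a => lin (l a) - C (l a y)
    have hex : ∃ e, homogeneousComponent e Q ≠ 0 := by
      by_contra hcon
      push Not at hcon
      apply hQ0
      rw [← sum_homogeneousComponent Q]
      exact Finset.sum_eq_zero fun i _ => hcon i
    refine ⟨Nat.find hex, homogeneousComponent (Nat.find hex) Q, Nat.find_spec hex,
      homogeneousComponent_isHomogeneous _ _, ?_⟩
    rintro v ⟨u, c, hu, hub, huy, hcu⟩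
    have hw0 : Tendsto (fun k => fun a => l a (u k - y)) atTop (𝓝 0) := by
      rw [tendsto_pi_nhds]
      intro a
      have h1 : Tendsto (fun k => u k - y) atTop (𝓝 0) := by
        have h2 := huy.sub_const y
        rwa [sub_self] at h2
      have h3 := ((hcont (l a)).tendsto 0).comp h1
      rw [map_zero] at h3
      exact h3
    have hcw : Tendsto (fun k => c k • (fun a => l a (u k - y)) : ℕ → Fin (r + 1) → ℂ) atTop
        (𝓝 fun a => l a v) := by
      rw [tendsto_pi_nhds]
      intro a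
      have h3 := ((hcont (l a)).tendsto v).comp hcu
      refine h3.congr fun k => ?_
      show l a (c k • (u k - y)) = c k • l a (u k - y)
      rw [map_smul]
    refine Tan_limit (Nat.find_spec hex) (fun d hd => ?_) hw0 hcw fun k => ?_
    · by_contra hcon
      exact Nat.find_min hex hd hcon
    · have h1 := hQ (u k) (hu k) (hub k)
      rw [← h1]
      congr 2
      funext a
      rw [map_sub, map_sub, eval_lin, eval_C]
  obtain ⟨l, hl⟩ := exists_forms hrel
  refine ⟨l, ?_⟩
  by_contra hcon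
  push Not at hcon
  have hfreq : ∀ k : ℕ, ∃ y' : Fin (M + 1) → ℂ, dist y' y < 1 / ((k : ℝ) + 1) ∧ y' ∈ Zer P ∧ y' b = 1 ∧
      (k : ℝ) * ‖fun a => l a (y' - y)‖ < ‖y' - y‖ := by
    intro k
    have h1 := hcon k
    have h2 : ∀ᶠ y' in 𝓝 y, dist y' y < 1 / ((k : ℝ) + 1) :=
      Metric.ball_mem_nhds y (by positivity)
    obtain ⟨y', ⟨h3, h4, h5⟩, h6⟩ := (h1.and_eventually h2).exists
    exact ⟨y', h6, h3, h4, h5⟩
  choose u hud huZ hub hul using hfreq
  have huy : Tendsto u atTop (𝓝 y) := by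
    rw [tendsto_iff_dist_tendsto_zero]
    exact squeeze_zero (fun _ => dist_nonneg) (fun k => (hud k).le) tendsto_one_div_add_atTop_nhds_zero_nat
  have hpos : ∀ k, 0 < ‖u k - y‖ := fun k => lt_of_le_of_lt (by positivity) (hul k)
  have hsph : ∀ k, (((‖u k - y‖⁻¹ : ℝ) : ℂ) • (u k - y)) ∈
      Metric.sphere (0 : Fin (M + 1) → ℂ) 1 := by
    intro k
    rw [mem_sphere_zero_iff_norm, norm_smul, Complex.norm_real, norm_inv, norm_norm,
      inv_mul_cancel₀ (hpos k).ne']
  obtain ⟨v, hv, φ, hφ, hlim⟩ := (isCompact_sphere (0 : Fin (M + 1) → ℂ) 1).tendsto_subseq hsph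
  have hvV : v ∈ V := ⟨fun k => u (φ k), fun k => ((‖u (φ k) - y‖⁻¹ : ℝ) : ℂ), fun k => huZ _,
    fun k => hub _, huy.comp hφ.tendsto_atTop, hlim⟩
  have hv0 : ∀ a, l a v = 0 := by
    intro a
    have h1 := ((hcont (l a)).tendsto v).comp hlim
    have h2 : Tendsto (fun k => l a (((‖u (φ k) - y‖⁻¹ : ℝ) : ℂ) • (u (φ k) - y))) atTop (𝓝 0) := by
      rw [tendsto_zero_iff_norm_tendsto_zero]
      have h3 : Tendsto (fun k : ℕ => 1 / (k : ℝ)) atTop (𝓝 0) := tendsto_one_div_atTop_nhds_zero_nat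
      refine squeeze_zero' (Eventually.of_forall fun _ => norm_nonneg _) ?_ h3
      filter_upwards [eventually_gt_atTop 0] with k hk
      have hk0 : (0 : ℝ) < k := by exact_mod_cast hk
      have hφk : (k : ℝ) ≤ φ k := by exact_mod_cast hφ.id_le k
      rw [map_smul, norm_smul, Complex.norm_real, norm_inv, norm_norm]
      have h4 : ‖l a (u (φ k) - y)‖ ≤ ‖fun a => l a (u (φ k) - y)‖ :=
        norm_le_pi_norm (fun a => l a (u (φ k) - y)) a
      have h5 := hul (φ k)
      have h6 := hpos (φ k)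
      rw [inv_mul_eq_div, div_le_div_iff₀ h6 hk0, one_mul]
      calc ‖l a (u (φ k) - y)‖ * (k : ℝ) ≤ ‖fun a => l a (u (φ k) - y)‖ * (φ k : ℝ) :=
            mul_le_mul h4 hφk hk0.le (norm_nonneg _)
        _ = (φ k : ℝ) * ‖fun a => l a (u (φ k) - y)‖ := mul_comm _ _
        _ ≤ ‖u (φ k) - y‖ := h5.le
    exact tendsto_nhds_unique h1 h2
  have h0 := hl v hvV hv0
  rw [h0, mem_sphere_zero_iff_norm, norm_zero] at hv
  exact zero_ne_one hv

end Pool.Agent.H39.SZ
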